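import Mathlib
import Pool.Agent.Y268.D3.Stm3
import Pool.Agent.Y268.Kad.NoTr

/-!
Algebras without tracial state: the bilinear bound `10 c`.
-/

open scoped ComplexOrder InnerProductSpace ComplexConjugate
open Finset

noncomputable section

namespace Pool.Agent.Y71.D3

open H759R2.Kad H711R2.KG H711R2.KG.P_A4 H711R2.KG.P_A5 Y268.Kad

section general

universe u v

variable {B : Type u} [CStarAlgebra B] [PartialOrder B] [StarOrderedRing B]
  {K : Type v} [NormedAddCommGroup K] [InnerProductSpace ℂ K] [CompleteSpace K]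
  {w : B →ₗ[ℂ] (K →L[ℂ] K)}

/-- Little Grothendieck inequality for the evaluation at a vector. -/
theorem gt_vec (hgt : St_gt.{u, v}) (w : B →ₗ[ℂ] (K →L[ℂ] K)) (z : K) {a : ℝ} (ha : 0 ≤ a)
    (hwz : ∀ x, ‖w x z‖ ≤ a * ‖x‖) (κ : Type) [Fintype κ] (x : κ → B) :
    ∑ k, ‖w (x k) z‖ ^ 2 ≤
      3 * a ^ 2 * (‖∑ k, star (x k) * x k‖ + ‖∑ k, x k * star (x k)‖) := by
  have h := hgt B K ((ContinuousLinearMap.apply ℂ K z).toLinearMap.comp w) a ha (fun b => by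
      simpa only [LinearMap.comp_apply, ContinuousLinearMap.coe_coe,
        ContinuousLinearMap.apply_apply] using hwz b) κ x
  simpa only [LinearMap.comp_apply, ContinuousLinearMap.coe_coe,
    ContinuousLinearMap.apply_apply] using h

/-- Algebras with small words. -/
theorem words_bi (hgt : St_gt.{u, v}) (hw : IsHom w) {c : ℝ} (hc : 0 ≤ c)
    (hwb : ∀ b, ‖w b‖ ≤ c * ‖b‖) (hwords : HasWords B) (m : ℕ)
    (X : CStarMatrix (Fin m) (Fin m) B) (ζ θ : HH (Fin m) K) (a b : Fin m → ℝ)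
    (ha : ∀ i, 0 ≤ a i) (hb : ∀ i, 0 ≤ b i) (hζ : ∀ i x, ‖w x (ζ i)‖ ≤ a i * ‖x‖)
    (hθ : ∀ i x, ‖vmap w x (θ i)‖ ≤ b i * ‖x‖) :
    ‖⟪amp w (Fin m) X ζ, θ⟫_ℂ‖ ^ 2 ≤
      (10 * c) ^ 2 * ‖X‖ ^ 2 * (∑ i, a i ^ 2) * ∑ i, b i ^ 2 := by
  obtain ⟨N, s, hs, hε⟩ := hwords (1 / (100 * ((m : ℝ) ^ 2 + 1))) (by positivity)
  set ε : ℝ := 1 / (100 * ((m : ℝ) ^ 2 + 1)) with hεdef
  have hε0 : 0 ≤ ε := by positivity
  have hm2 : (0 : ℝ) < (m : ℝ) ^ 2 + 1 := by positivity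
  have hε1 : ε ≤ 1 / 100 := by
    rw [hεdef]
    gcongr
    nlinarith [sq_nonneg (m : ℝ)]
  have hε2 : (m : ℝ) ^ 2 * ε ≤ 1 / 100 := by
    rw [hεdef, mul_one_div, div_le_div_iff₀ (by positivity) (by norm_num)]
    nlinarith
  obtain ⟨N', t, ht, hδ⟩ := hwords (1 / (100 * ((N : ℝ) * m + 1))) (by positivity)
  set δ : ℝ := 1 / (100 * ((N : ℝ) * m + 1)) with hδdef
  have hδ0 : 0 ≤ δ := by positivity
  have hNm : (0 : ℝ) < (N : ℝ) * m + 1 := by positivity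
  have hδ1 : δ ≤ 1 / 100 := by
    rw [hδdef]
    gcongr
    have : (0 : ℝ) ≤ (N : ℝ) * m := by positivity
    linarith
  have hδ2 : ((N : ℝ) * m) * δ ≤ 1 / 100 := by
    rw [hδdef, mul_one_div, div_le_div_iff₀ (by positivity) (by norm_num)]
    nlinarith
  have e5 : ‖(1 : B)‖ ≤ 1 := Col.norm_one_le
  set η : Fin N × Fin m → K := fun k => w (s k.1) (ζ k.2) with hη
  set SA : ℝ := ∑ i, a i ^ 2 with hSA
  set SB : ℝ := ∑ i, b i ^ 2 with hSB
  have hSA0 : 0 ≤ SA := Finset.sum_nonneg fun i _ => sq_nonneg _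
  have hSB0 : 0 ≤ SB := Finset.sum_nonneg fun i _ => sq_nonneg _
  -- the vectors in the norm given by the second words
  set Q : ℝ := ∑ k, ∑ l, ‖w (t l) (η k)‖ ^ 2 with hQdef
  have hQ0 : 0 ≤ Q := by positivity
  have hQ : Q ≤ 3 * (1 + δ) * SA := by
    have e1 : Q = ∑ j, ∑ q : Fin N' × Fin N, ‖w (t q.1 * s q.2) (ζ j)‖ ^ 2 := by
      rw [hQdef, Fintype.sum_prod_type, Finset.sum_comm]
      refine Finset.sum_congr rfl fun j _ => ?_
      rw [Fintype.sum_prod_type_right]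
      refine Finset.sum_congr rfl fun p _ => Finset.sum_congr rfl fun l _ => ?_
      rw [hη, hw.mul]
      rfl
    rw [e1, hSA, Finset.mul_sum]
    refine Finset.sum_le_sum fun j _ => ?_
    have h1 := gt_vec hgt w (ζ j) (ha j) (hζ j) (Fin N' × Fin N) (fun q => t q.1 * s q.2)
    refine h1.trans ?_
    have e2 : ∑ q : Fin N' × Fin N, star (t q.1 * s q.2) * (t q.1 * s q.2) = 1 := by
      rw [Fintype.sum_prod_type_right, ← hs]
      refine Finset.sum_congr rfl fun p _ => ?_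
      have h3 : ∀ l, star (t l * s p) * (t l * s p) = star (s p) * (star (t l) * t l) * s p := by
        intro l
        rw [star_mul]
        simp only [mul_assoc]
      simp only [h3]
      rw [← Finset.sum_mul, ← Finset.mul_sum, ht, mul_one]
    have e3 : ∑ q : Fin N' × Fin N, (t q.1 * s q.2) * star (t q.1 * s q.2) =
        ∑ l, t l * (∑ p, s p * star (s p)) * star (t l) := by
      rw [Fintype.sum_prod_type]
      refine Finset.sum_congr rfl fun l _ => ?_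
      rw [Finset.mul_sum, Finset.sum_mul]
      refine Finset.sum_congr rfl fun k _ => ?_
      rw [star_mul]
      simp only [mul_assoc]
    have e4 : ‖∑ l, t l * (∑ p, s p * star (s p)) * star (t l)‖ ≤ δ := by
      refine (norm_sandwich t _ (Finset.sum_nonneg fun p _ => mul_star_self_nonneg _)).trans ?_
      calc ‖∑ p, s p * star (s p)‖ * ‖∑ i, t i * star (t i)‖ ≤ 1 * δ := by
            refine mul_le_mul (hε.trans (by linarith)) hδ (norm_nonneg _) zero_le_one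
        _ = δ := one_mul _
    rw [e2, e3]
    calc 3 * (a j) ^ 2 * (‖(1 : B)‖ + ‖∑ l, t l * (∑ p, s p * star (s p)) * star (t l)‖)
        ≤ 3 * (a j) ^ 2 * (1 + δ) := by gcongr
      _ = _ := by ring
  -- the row bound
  set M : ℝ := √(3 * c ^ 2 * (1 + 1 / 100) * Q) with hM
  have hM0 : 0 ≤ M := Real.sqrt_nonneg _
  have hM2 : M ^ 2 = 3 * c ^ 2 * (1 + 1 / 100) * Q := Real.sq_sqrt (by positivity)
  have hT : ∀ (Z : CStarMatrix (Fin N × Fin m) (Fin N × Fin m) B) (j : Fin N × Fin m),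
      ‖∑ k, w (Z j k) (η k)‖ ≤ M * ‖Z‖ := by
    intro Z j
    have h1 : ‖∑ k, Z j k * star (Z j k)‖ ≤ ‖Z‖ ^ 2 := by
      have h2 : (Z * star Z) j j = ∑ k, Z j k * star (Z j k) := by
        rw [CStarMatrix.mul_apply]
        rfl
      rw [← h2]
      refine CStarMatrix.norm_entry_le_norm.trans ?_
      rw [CStarRing.norm_self_mul_star, pow_two]
    have h2 : ‖∑ k, star (Z j k) * Z j k‖ ≤ ((N : ℝ) * m) * ‖Z‖ ^ 2 := by
      refine (norm_sum_le _ _).trans ?_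
      calc ∑ k, ‖star (Z j k) * Z j k‖ ≤ ∑ _k : Fin N × Fin m, ‖Z‖ ^ 2 := by
            refine Finset.sum_le_sum fun k _ => ?_
            rw [CStarRing.norm_star_mul_self, ← pow_two]
            exact pow_le_pow_left₀ (norm_nonneg _) CStarMatrix.norm_entry_le_norm 2
        _ = _ := by
            rw [Finset.sum_const, Finset.card_univ, Fintype.card_prod, Fintype.card_fin,
              Fintype.card_fin, nsmul_eq_mul]
            push_cast
            ring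
    have h3 := row_words hgt hw hc hwb t ht hδ (fun k => Z j k) η
    have h4 : ‖∑ k, w (Z j k) (η k)‖ ^ 2 ≤ (M * ‖Z‖) ^ 2 := by
      refine h3.trans ?_
      rw [mul_pow, hM2]
      calc 3 * c ^ 2 * (‖∑ k, Z j k * star (Z j k)‖ + ‖∑ k, star (Z j k) * Z j k‖ * δ) * Q
          ≤ 3 * c ^ 2 * (‖Z‖ ^ 2 + ((N : ℝ) * m) * ‖Z‖ ^ 2 * δ) * Q := by gcongr
        _ = 3 * c ^ 2 * (1 + ((N : ℝ) * m) * δ) * Q * ‖Z‖ ^ 2 := by ring
        _ ≤ 3 * c ^ 2 * (1 + 1 / 100) * Q * ‖Z‖ ^ 2 := by gcongr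
    exact (pow_le_pow_iff_left₀ (norm_nonneg _) (by positivity) two_ne_zero).1 h4
  have hrow := row_mat' hgt (w := w) η hM0 hT (sandw s X)
  have hsX := norm_sandw s hs X
  have hsr := sandw_row s hs ε hε X
  -- the output vectors
  set z : Fin N × Fin m → K := fun r => ∑ k, w (sandw s X r k) (η k) with hz
  set y : Fin N × Fin m → K := fun r => vmap w (s r.1) (θ r.2) with hy
  have hout : ⟪amp w (Fin m) X ζ, θ⟫_ℂ = ∑ r, ⟪z r, y r⟫_ℂ := by
    rw [PiLp.inner_apply, Fintype.sum_prod_type, Finset.sum_comm]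
    refine Finset.sum_congr rfl fun i _ => ?_
    rw [amp_expand w hw s hs X ζ i, sum_inner]
    refine Finset.sum_congr rfl fun q _ => ?_
    rw [hz, hy]
    simp only [vmap_apply, ContinuousLinearMap.star_eq_adjoint,
      ContinuousLinearMap.adjoint_inner_right]
    rfl
  have hY : ∑ r, ‖y r‖ ^ 2 ≤ 3 * (1 + ε) * SB := by
    rw [Fintype.sum_prod_type, Finset.sum_comm, hSB, Finset.mul_sum]
    refine Finset.sum_le_sum fun i _ => ?_
    refine (gt_vec hgt (vmap w) (θ i) (hb i) (hθ i) (Fin N) s).trans ?_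
    rw [hs]
    calc 3 * (b i) ^ 2 * (‖(1 : B)‖ + ‖∑ k, s k * star (s k)‖)
        ≤ 3 * (b i) ^ 2 * (1 + ε) := by gcongr
      _ = _ := by ring
  have hCS : ‖⟪amp w (Fin m) X ζ, θ⟫_ℂ‖ ^ 2 ≤ (∑ r, ‖z r‖ ^ 2) * ∑ r, ‖y r‖ ^ 2 := by
    have h1 : ‖⟪amp w (Fin m) X ζ, θ⟫_ℂ‖ ≤ ∑ r, ‖z r‖ * ‖y r‖ := by
      rw [hout]
      exact (norm_sum_le _ _).trans (Finset.sum_le_sum fun r _ => norm_inner_le_norm _ _)
    calc ‖⟪amp w (Fin m) X ζ, θ⟫_ℂ‖ ^ 2 ≤ (∑ r, ‖z r‖ * ‖y r‖) ^ 2 := by gcongr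
      _ ≤ _ := Finset.sum_mul_sq_le_sq_mul_sq _ _ _
  calc ‖⟪amp w (Fin m) X ζ, θ⟫_ℂ‖ ^ 2
      ≤ (∑ r, ‖z r‖ ^ 2) * ∑ r, ‖y r‖ ^ 2 := hCS
    _ ≤ (3 * (3 * c ^ 2 * (1 + 1 / 100) * (3 * (1 + δ) * SA)) *
          (‖X‖ ^ 2 + (m : ℝ) ^ 2 * ‖X‖ ^ 2 * ε)) * (3 * (1 + ε) * SB) := by
        gcongr
        refine hrow.trans ?_
        rw [hM2]
        gcongr
    _ = (81 * (1 + 1 / 100) * ((1 + ε) * (1 + δ) * (1 + (m : ℝ) ^ 2 * ε))) *
          (c ^ 2 * ‖X‖ ^ 2 * SA * SB) := by ring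
    _ ≤ (81 * (1 + 1 / 100) * ((1 + 1 / 100) * (1 + 1 / 100) * (1 + 1 / 100))) *
          (c ^ 2 * ‖X‖ ^ 2 * SA * SB) := by gcongr
    _ ≤ 100 * (c ^ 2 * ‖X‖ ^ 2 * SA * SB) := by
        gcongr
        norm_num
    _ = _ := by ring

end general

/-- Algebras without tracial states. -/
theorem prove_notracebi : Y268.D3.S_notracebi := by
  intro B _ _ _ ht H _ _ _ u hu c hc hb m X ζ θ a b ha hb' hζ hθ
  obtain ⟨n, a', δ, hδ, ha'⟩ := p_A_hb B ht
  obtain ⟨k, r, ρ, hρ0, hρ1, hr1, hr2⟩ := p_A_fam B n a' δ hδ ha'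
  exact words_bi main_gt hu hc hb (p_A_word B k r ρ hρ0 hρ1 hr1 hr2) m X ζ θ a b ha hb' hζ hθ

end Pool.Agent.Y71.D3
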